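import Mathlib

/-!
# MP_cd67d3_gt: finite bases of `Homeo(ℝⁿ)` consisting of analytic diffeomorphisms

Definitions and the exact statements of the parts of the proof.
-/

open Set Function Filter Topology

namespace Pool.Agent.W641.FB

/-- `ℝⁿ` (as a product space; topology and differentiability are the usual ones). -/
abbrev E (n : ℕ) : Type := Fin n → ℝ

/-- `A` is closed under uniform limits on balls (one-sided: only the maps, not their inverses,
are required to converge). -/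
def CG {n : ℕ} (A : Subgroup (E n ≃ₜ E n)) : Prop :=
  ∀ h : E n ≃ₜ E n, (∀ R ε : ℝ, 0 < ε → ∃ g ∈ A, ∀ x : E n, ‖x‖ ≤ R → ‖g x - h x‖ ≤ ε) → h ∈ A

/-- `g` does not depend on the `i`-th coordinate. -/
def Ind {n : ℕ} (i : Fin n) (g : E n → ℝ) : Prop := ∀ (x : E n) (a : ℝ), g (update x i a) = g x

/-- `A` contains all shears `x_i ↦ x_i + g(x)`, `g` continuous and independent of `x_i`. -/
def HasShear {n : ℕ} (A : Subgroup (E n ≃ₜ E n)) (i : Fin n) : Prop :=
  ∀ g : E n → ℝ, Continuous g → Ind i g →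
    ∀ h : E n ≃ₜ E n, (∀ x, h x = update x i (x i + g x)) → h ∈ A

/-- `A` contains all half-line stretches `x_i ↦ x_i + (e^{t(x)}-1) max(x_i,0)`, `t` continuous and
independent of `x_i`. -/
def HasStretch {n : ℕ} (A : Subgroup (E n ≃ₜ E n)) (i : Fin n) : Prop :=
  ∀ t : E n → ℝ, Continuous t → Ind i t →
    ∀ h : E n ≃ₜ E n, (∀ x, h x = update x i (x i + (Real.exp (t x) - 1) * max (x i) 0)) → h ∈ A

/-- `A` contains all homeomorphisms which change only the `i`-th coordinate and are increasing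
in it. -/
def HasFib {n : ℕ} (A : Subgroup (E n ≃ₜ E n)) (i : Fin n) : Prop :=
  ∀ h : E n ≃ₜ E n, (∀ x j, j ≠ i → h x j = x j) →
    (∀ (x : E n) (a b : ℝ), a < b → h (update x i a) i < h (update x i b) i) → h ∈ A

/-- `A` contains all maps `x_i ↦ f(x_i)`, `f` an increasing homeomorphism of the line. -/
def HasOne {n : ℕ} (A : Subgroup (E n ≃ₜ E n)) (i : Fin n) : Prop :=
  ∀ f : ℝ ≃ₜ ℝ, StrictMono f → ∀ h : E n ≃ₜ E n, (∀ x, h x = update x i (f (x i))) → h ∈ A

/-- `A` contains `id + u` for all `u` with Lipschitz constant at most `L` (with respect to the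
supremum norm). -/
def HasLip {n : ℕ} (A : Subgroup (E n ≃ₜ E n)) (L : NNReal) : Prop :=
  ∀ u : E n → E n, LipschitzWith L u → ∀ h : E n ≃ₜ E n, (∀ x, h x = x + u x) → h ∈ A

/-- `A` contains all invertible linear maps. -/
def HasLin {n : ℕ} (A : Subgroup (E n ≃ₜ E n)) : Prop :=
  ∀ T : E n ≃L[ℝ] E n, T.toHomeomorph ∈ A

/-- `A` contains all translations. -/
def HasTrans {n : ℕ} (A : Subgroup (E n ≃ₜ E n)) : Prop :=
  ∀ (v : E n) (h : E n ≃ₜ E n), (∀ x, h x = x + v) → h ∈ A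

/-- `H_s(x) = ((1+s) x + (s-1) √(1+x²)) / 2`, slope `1` at `-∞`, slope `s` at `+∞`. -/
noncomputable def Hs (s x : ℝ) : ℝ := ((1 + s) * x + (s - 1) * √(1 + x ^ 2)) / 2

/-- The five one-dimensional generators act in the coordinate `i`. -/
structure Gens {n : ℕ} (A : Subgroup (E n ≃ₜ E n)) (i : Fin n) : Prop where
  t1 : ∀ h : E n ≃ₜ E n, (∀ x, h x = update x i (x i + 1)) → h ∈ A
  t2 : ∀ h : E n ≃ₜ E n, (∀ x, h x = update x i (x i + √2)) → h ∈ A
  dbl : ∀ h : E n ≃ₜ E n, (∀ x, h x = update x i (2 * x i)) → h ∈ A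
  h1 : ∀ h : E n ≃ₜ E n, (∀ x, h x = update x i (Hs (Real.exp 1) (x i))) → h ∈ A
  h2 : ∀ h : E n ≃ₜ E n, (∀ x, h x = update x i (Hs (Real.exp √2) (x i))) → h ∈ A

/-- Part FIB. -/
def S_Fib : Prop := ∀ (n : ℕ) (A : Subgroup (E n ≃ₜ E n)) (i : Fin n), CG A →
  HasShear A i → HasStretch A i → HasFib A i

/-- Part STR. -/
def S_Str : Prop := ∀ (n : ℕ) (A : Subgroup (E n ≃ₜ E n)) (i : Fin n), CG A →
  HasShear A i → HasOne A i → HasStretch A i

/-- Part ONE. -/
def S_One : Prop := ∀ (n : ℕ) (A : Subgroup (E n ≃ₜ E n)) (i : Fin n), CG A →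
  Gens A i → HasOne A i

/-- Part SHEAR. -/
def S_Shear : Prop := ∀ (n : ℕ) (A : Subgroup (E n ≃ₜ E n)), CG A → (∀ i, HasOne A i) →
  (∀ i j, i ≠ j → ∀ h : E n ≃ₜ E n, (∀ x, h x = update x i (x i + x j)) → h ∈ A) →
  ∀ i, HasShear A i

/-- Part LIP. -/
def S_Lip : Prop := ∀ (n : ℕ) (A : Subgroup (E n ≃ₜ E n)), (∀ i, HasFib A i) → HasLip A (1 / 4)

/-- Part LIN. -/
def S_Lin : Prop := ∀ (n : ℕ) (A : Subgroup (E n ≃ₜ E n)), (∀ i, HasOne A i) →
  (∀ i, HasShear A i) →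
  (∀ i, ∀ h : E n ≃ₜ E n, (∀ x, h x = update x i (-x i)) → h ∈ A) → HasLin A ∧ HasTrans A

/-- Part DIFF. -/
def S_Diff : Prop := ∀ (n : ℕ) (A : Subgroup (E n ≃ₜ E n)), CG A → HasLip A (1 / 4) →
  HasLin A → HasTrans A → ∀ h : E n ≃ₜ E n, ContDiff ℝ 1 h → ContDiff ℝ 1 h.symm → h ∈ A

/-- The usual (compact-open) topology of the homeomorphism group: the coarsest topology for which
`h ↦ h` and `h ↦ h⁻¹` are continuous maps to `C(ℝⁿ, ℝⁿ)` with the compact-open topology. -/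
@[instance_reducible] def homeoTop (n : ℕ) : TopologicalSpace (E n ≃ₜ E n) :=
  TopologicalSpace.induced
    (fun h => ((⟨h, h.continuous⟩ : C(E n, E n)), (⟨h.symm, h.symm.continuous⟩ : C(E n, E n))))
    inferInstance

/-- Part TOP: the closure of a subgroup in the compact-open topology is a subgroup which is closed
under one-sided limits. -/
def S_Top : Prop := ∀ (n : ℕ) (B : Subgroup (E n ≃ₜ E n)),
  ∃ A : Subgroup (E n ≃ₜ E n), (A : Set (E n ≃ₜ E n)) = @closure _ (homeoTop n) B ∧ CG A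

end Pool.Agent.W641.FB
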