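import Pool.Agent.W641.FB.Defs

open Set Function Filter Topology

namespace Pool.Agent.W641.FB

/-- the stretch function -/
noncomputable def St (t y : ℝ) : ℝ := y + (Real.exp t - 1) * max y 0

theorem St_nonpos {t y : ℝ} (hy : y ≤ 0) : St t y = y := by
  simp [St, max_eq_right hy]

theorem St_nonneg {t y : ℝ} (hy : 0 ≤ y) : St t y = Real.exp t * y := by
  simp only [St, max_eq_left hy]; ring

theorem St_St (s t y : ℝ) : St s (St t y) = St (s + t) y := by
  rcases le_total y 0 with hy | hy
  · rw [St_nonpos hy, St_nonpos hy, St_nonpos hy]
  · have h : 0 ≤ St t y := by rw [St_nonneg hy]; positivity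
    rw [St_nonneg h, St_nonneg hy, St_nonneg hy, Real.exp_add]; ring

theorem St_zero (y : ℝ) : St 0 y = y := by simp [St]

theorem St_strictMono (t : ℝ) : StrictMono (St t) := by
  intro a b hab
  rcases le_total a 0 with ha | ha
  · rcases le_total b 0 with hb | hb
    · rwa [St_nonpos ha, St_nonpos hb]
    · rw [St_nonpos ha, St_nonneg hb]
      rcases hb.eq_or_lt with h | h
      · rw [← h] at hab ⊢; simpa using hab
      · have : 0 < Real.exp t * b := by positivity
        linarith
  · have hb : 0 ≤ b := ha.trans hab.le
    rw [St_nonneg ha, St_nonneg hb]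
    exact mul_lt_mul_of_pos_left hab (Real.exp_pos t)

/-- shear homeomorphism -/
def shH {n : ℕ} (i : Fin n) (g : E n → ℝ) (hg : Continuous g) (hi : Ind i g) : E n ≃ₜ E n where
  toFun x := update x i (x i + g x)
  invFun x := update x i (x i - g x)
  left_inv x := by simp [hi x]
  right_inv x := by simp [hi x]
  continuous_toFun := continuous_id.update i ((continuous_apply i).add hg)
  continuous_invFun := continuous_id.update i ((continuous_apply i).sub hg)

/-- stretch homeomorphism -/
noncomputable def stH {n : ℕ} (i : Fin n) (t : E n → ℝ) (ht : Continuous t) (hi : Ind i t) :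
    E n ≃ₜ E n where
  toFun x := update x i (St (t x) (x i))
  invFun x := update x i (St (-t x) (x i))
  left_inv x := by
    simp only [update_idem, update_self, hi x]
    rw [St_St, neg_add_cancel, St_zero, update_eq_self]
  right_inv x := by
    simp only [update_idem, update_self, hi x]
    rw [St_St, add_neg_cancel, St_zero, update_eq_self]
  continuous_toFun := by
    apply continuous_id.update i
    unfold St
    fun_prop
  continuous_invFun := by
    apply continuous_id.update i
    unfold St
    fun_prop

theorem cont_upd {n : ℕ} (i : Fin n) (φ : E n → ℝ) (hφ : Continuous φ) (y : ℝ) :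
    Continuous (fun x : E n => φ (update x i y)) :=
  hφ.comp (continuous_id.update i continuous_const)

theorem fib : S_Fib := by
  intro n A i hA hsh hst h hfix hinc
  apply hA
  intro R0 ε hε
  -- w.l.o.g. R ≥ 0
  set R := max R0 0 with hR
  have hRn : 0 ≤ R := le_max_right _ _
  set φ : E n → ℝ := fun x => h x i with hφ
  have hφc : Continuous φ := (continuous_apply i).comp h.continuous
  set c : ℝ → E n → ℝ := fun y x => φ (update x i y) with hc
  have hcc : ∀ y, Continuous (c y) := fun y => cont_upd i φ hφc y
  have hci : ∀ y, Ind i (c y) := by
    intro y x a; simp [hc]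
  have hclt : ∀ x y z, y < z → c y x < c z x := fun x y z hyz => hinc x y z hyz
  -- uniform continuity
  have huc : UniformContinuousOn φ (Metric.closedBall 0 (R + 1)) :=
    (isCompact_closedBall 0 (R + 1)).uniformContinuousOn_of_continuous hφc.continuousOn
  obtain ⟨δ0, hδ0, hδ⟩ := Metric.uniformContinuousOn_iff_le.1 huc ε hε
  set δ := min δ0 1 with hδd
  have hδp : 0 < δ := lt_min hδ0 one_pos
  set yy : ℕ → ℝ := fun k => -R + k * δ with hyy
  have hylt : ∀ k, yy k < yy (k + 1) := by
    intro k; simp only [hyy]; push_cast; nlinarith
  have hymono : StrictMono yy := strictMono_nat_of_lt_succ hylt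
  have claim : ∀ k : ℕ, ∃ P ∈ A, (∀ x j, j ≠ i → P x j = x j) ∧
      (∀ (x : E n) (a b : ℝ), a < b → P (update x i a) i < P (update x i b) i) ∧
      ∀ x, ∀ j ≤ k, P (update x i (yy j)) i = c (yy j) x := by
    intro k
    induction k with
    | zero =>
      have hg : Continuous (fun x => c (yy 0) x - yy 0) := (hcc _).sub continuous_const
      have hgi : Ind i (fun x => c (yy 0) x - yy 0) := by
        intro x a; simp only [hci (yy 0) x a]
      refine ⟨shH i _ hg hgi, hsh _ hg hgi _ (fun x => rfl), ?_, ?_, ?_⟩
      · intro x j hj
        change update x i _ j = x j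
        simp [hj]
      · intro x a b hab
        change update (update x i a) i _ i < update (update x i b) i _ i
        simp only [update_self]
        rw [hci, hci]
        linarith
      · intro x j hj
        have : j = 0 := by omega
        subst this
        change update (update x i (yy 0)) i _ i = _
        simp only [update_self]
        rw [hci]
        ring
    | succ k ih =>
      obtain ⟨P, hPA, hPfix, hPinc, hPval⟩ := ih
      set d : E n → ℝ := fun x => P (update x i (yy (k + 1))) i with hd
      have hdc : Continuous d := cont_upd i (fun x => P x i) ((continuous_apply i).comp P.continuous) _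
      have hdi : Ind i d := by intro x a; simp [hd]
      have hdlt : ∀ x, c (yy k) x < d x := by
        intro x
        rw [← hPval x k le_rfl]
        exact hPinc x _ _ (hylt k)
      set t : E n → ℝ := fun x => Real.log ((c (yy (k + 1)) x - c (yy k) x) / (d x - c (yy k) x))
        with ht
      have hpos1 : ∀ x, 0 < c (yy (k + 1)) x - c (yy k) x := fun x => sub_pos.2 (hclt x _ _ (hylt k))
      have hpos2 : ∀ x, 0 < d x - c (yy k) x := fun x => sub_pos.2 (hdlt x)
      have htc : Continuous t := by
        apply Continuous.log
        · exact ((hcc _).sub (hcc _)).div (hdc.sub (hcc _)) (fun x => (hpos2 x).ne')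
        · intro x; exact (div_pos (hpos1 x) (hpos2 x)).ne'
      have hti : Ind i t := by
        intro x a; simp only [ht]; rw [hci, hci, hdi]
      have hexp : ∀ x, Real.exp (t x) = (c (yy (k + 1)) x - c (yy k) x) / (d x - c (yy k) x) :=
        fun x => Real.exp_log (div_pos (hpos1 x) (hpos2 x))
      set σ := shH i (c (yy k)) (hcc _) (hci _) with hσ
      set τ := stH i t htc hti with hτ
      have hσA : σ ∈ A := hsh _ (hcc _) (hci _) _ (fun x => rfl)
      have hτA : τ ∈ A := hst _ htc hti _ (fun x => rfl)
      set Q := σ * τ * σ⁻¹ with hQ
      have hQA : Q ∈ A := A.mul_mem (A.mul_mem hσA hτA) (A.inv_mem hσA)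
      have hQval : ∀ x, Q x = update x i (c (yy k) x + St (t x) (x i - c (yy k) x)) := by
        intro x
        change update (update (update x i (x i - c (yy k) x)) i
            (St (t (update x i (x i - c (yy k) x))) (update x i (x i - c (yy k) x) i))) i
          (update (update x i (x i - c (yy k) x)) i
            (St (t (update x i (x i - c (yy k) x))) (update x i (x i - c (yy k) x) i)) i +
            c (yy k) (update (update x i (x i - c (yy k) x)) i
            (St (t (update x i (x i - c (yy k) x))) (update x i (x i - c (yy k) x) i)))) = _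
        simp only [update_idem, update_self]
        rw [hti, hci, add_comm]
      have hPx : ∀ (x : E n) (y : ℝ), P (update x i y) = update x i (P (update x i y) i) := by
        intro x y
        ext j
        by_cases hj : j = i
        · subst hj; simp
        · rw [hPfix _ j hj]; simp [hj]
      have hQP : ∀ (x : E n) (y : ℝ), (Q * P) (update x i y) i =
          c (yy k) x + St (t x) (P (update x i y) i - c (yy k) x) := by
        intro x y
        rw [Homeomorph.mul_apply, hQval, hPx x y]
        simp only [update_self]
        rw [hti, hci]
      refine ⟨Q * P, A.mul_mem hQA hPA, ?_, ?_, ?_⟩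
      · intro x j hj
        rw [Homeomorph.mul_apply, hQval]
        simp [hj, hPfix x j hj]
      · intro x a b hab
        rw [hQP, hQP]
        have := St_strictMono (t x) (sub_lt_sub_right (hPinc x a b hab) (c (yy k) x))
        linarith
      · intro x j hj
        rw [hQP]
        rcases Nat.lt_or_ge j (k + 1) with hjk | hjk
        · have hjk' : j ≤ k := by omega
          rw [hPval x j hjk', St_nonpos]
          · ring
          · have : c (yy j) x ≤ c (yy k) x := by
              rcases hjk'.eq_or_lt with h1 | h1
              · rw [h1]
              · exact (hclt x _ _ (hymono h1)).le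
            linarith
        · have hjk' : j = k + 1 := by omega
          subst hjk'
          change c (yy k) x + St (t x) (d x - c (yy k) x) = _
          rw [St_nonneg (hpos2 x).le, hexp]
          rw [div_mul_cancel₀ _ (hpos2 x).ne']
          ring
  obtain ⟨m, hm⟩ := exists_nat_ge (2 * R / δ)
  have hm' : 2 * R ≤ m * δ := by rwa [div_le_iff₀ hδp] at hm
  obtain ⟨P, hPA, hPfix, hPinc, hPval⟩ := claim (m + 1)
  refine ⟨P, hPA, fun x hx => ?_⟩
  have hxR : ‖x‖ ≤ R := hx.trans (le_max_left _ _)
  rw [pi_norm_le_iff_of_nonneg hε.le]
  intro j
  by_cases hj : j = i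
  · subst hj
    have hxi : |x j| ≤ R := (norm_le_pi_norm x j).trans hxR
    -- find k
    have hxi' := abs_le.1 hxi
    obtain ⟨k, hk1, hk2, hkm⟩ : ∃ k : ℕ, yy k ≤ x j ∧ x j ≤ yy (k + 1) ∧ k ≤ m := by
      refine ⟨⌊(x j + R) / δ⌋₊, ?_, ?_, ?_⟩
      · have := Nat.floor_le (div_nonneg (by linarith : 0 ≤ x j + R) hδp.le)
        rw [le_div_iff₀ hδp] at this
        simp only [hyy]; linarith
      · have := (Nat.lt_floor_add_one ((x j + R) / δ)).le
        rw [div_le_iff₀ hδp] at this
        simp only [hyy]; push_cast; linarith
      · apply Nat.floor_le_of_le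
        rw [div_le_iff₀ hδp]; linarith
    have e1 : x = update x j (x j) := (update_eq_self j x).symm
    have hφx : ∀ y z, y ≤ z → c y x ≤ c z x := by
      intro y z hyz
      rcases hyz.eq_or_lt with h1 | h1
      · rw [h1]
      · exact (hclt x _ _ h1).le
    have hPx : ∀ y z, y ≤ z → P (update x j y) j ≤ P (update x j z) j := by
      intro y z hyz
      rcases hyz.eq_or_lt with h1 | h1
      · rw [h1]
      · exact (hPinc x _ _ h1).le
    have a1 : c (yy k) x ≤ h x j := by
      have := hφx _ _ hk1
      simpa [hc, hφ] using this
    have a2 : h x j ≤ c (yy (k + 1)) x := by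
      have := hφx _ _ hk2
      simpa [hc, hφ] using this
    have b1 : c (yy k) x ≤ P x j := by
      have := hPx _ _ hk1
      rw [hPval x k (by omega)] at this
      simpa using this
    have b2 : P x j ≤ c (yy (k + 1)) x := by
      have := hPx _ _ hk2
      rw [hPval x (k + 1) (by omega)] at this
      simpa using this
    have hball : ∀ y, |y| ≤ R + 1 → update x j y ∈ Metric.closedBall (0 : E n) (R + 1) := by
      intro y hy
      rw [mem_closedBall_zero_iff, pi_norm_le_iff_of_nonneg (by linarith)]
      intro l
      by_cases hl : l = j
      · subst hl; simpa using hy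
      · simp only [hl, update_of_ne, ne_eq, not_false_eq_true]
        exact (norm_le_pi_norm x l).trans (by linarith)
    have hd1 : c (yy (k + 1)) x - c (yy k) x ≤ ε := by
      have hδ1 : δ ≤ 1 := min_le_right _ _
      have hyk : yy (k + 1) = yy k + δ := by simp only [hyy]; push_cast; ring
      have hyk0 : -R ≤ yy k := by
        simp only [hyy]
        have : (0:ℝ) ≤ k * δ := by positivity
        linarith
      have h1 : |yy (k + 1)| ≤ R + 1 := by
        rw [abs_le]; constructor <;> linarith
      have h2 : |yy k| ≤ R + 1 := by
        rw [abs_le]; constructor <;> linarith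
      have := hδ _ (hball _ h1) _ (hball _ h2) (by
        rw [dist_pi_le_iff hδ0.le]
        intro l
        by_cases hl : l = j
        · subst hl
          simp only [update_self]
          rw [hyk, Real.dist_eq, add_sub_cancel_left, abs_of_pos hδp]
          exact min_le_left _ _
        · simp [hl, hδ0.le])
      rw [Real.dist_eq] at this
      exact (le_abs_self _).trans this
    rw [Pi.sub_apply, Real.norm_eq_abs, abs_le]
    constructor <;> linarith
  · rw [Pi.sub_apply, hPfix x j hj, hfix x j hj]
    simpa using hε.le

end Pool.Agent.W641.FB
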