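import Pool.Agent.W641.FB.Str

open Set Function Filter Topology

namespace Pool.Agent.W641.FB

theorem trans_mem {n : ℕ} (A : Subgroup (E n ≃ₜ E n)) (hsh : ∀ i, HasShear A i) : HasTrans A := by
  intro v h hh
  have key : ∀ s : Finset (Fin n), ∀ G : E n ≃ₜ E n,
      (∀ x j, G x j = x j + if j ∈ s then v j else 0) → G ∈ A := by
    intro s
    induction s using Finset.induction_on with
    | empty =>
      intro G hG
      have : G = 1 := by
        ext x j
        rw [hG]; simp
      rw [this]; exact A.one_mem
    | insert j s hj ih =>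
      intro G hG
      have hi : Ind j (fun _ : E n => v j) := fun _ _ => rfl
      set σ := shH j (fun _ : E n => v j) continuous_const hi with hσ
      have hσA : σ ∈ A := hsh j _ continuous_const hi σ (fun x => rfl)
      have h1 : σ⁻¹ * G ∈ A := by
        apply ih
        intro x k
        change update (G x) j (G x j - v j) k = _
        by_cases hk : k = j
        · subst hk
          simp [hG, hj]
        · simp [hG, hk]
      have : G = σ * (σ⁻¹ * G) := by group
      rw [this]; exact A.mul_mem hσA h1
  apply key Finset.univ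
  intro x j
  rw [hh]; simp

/-- the homeomorphism of an invertible matrix -/
noncomputable def matH {n : ℕ} : (Matrix (Fin n) (Fin n) ℝ)ˣ →* (E n ≃ₜ E n) where
  toFun M :=
    { toFun := fun x => M.1.mulVec x
      invFun := fun x => M⁻¹.1.mulVec x
      left_inv := fun x => by simp
      right_inv := fun x => by simp
      continuous_toFun := by
        exact (Matrix.mulVecLin M.1).continuous_of_finiteDimensional
      continuous_invFun := by
        exact (Matrix.mulVecLin M⁻¹.1).continuous_of_finiteDimensional }
  map_one' := by ext x; simp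
  map_mul' M N := by ext x; simp

theorem matH_apply {n : ℕ} (M : (Matrix (Fin n) (Fin n) ℝ)ˣ) (x : E n) : matH M x = M.1.mulVec x := rfl

theorem diag_mem {n : ℕ} (A : Subgroup (E n ≃ₜ E n)) (hone : ∀ i, HasOne A i)
    (hre : ∀ i, ∀ h : E n ≃ₜ E n, (∀ x, h x = update x i (-x i)) → h ∈ A) (D : Fin n → ℝ)
    (hD : ∀ i, D i ≠ 0) (h : E n ≃ₜ E n) (hh : ∀ x j, h x j = D j * x j) : h ∈ A := by
  have h1 : ∀ (i : Fin n) (c : ℝ) (hc : c ≠ 0), co i (Homeomorph.mulLeft₀ c hc) ∈ A := by
    intro i c hc
    rcases lt_or_gt_of_ne hc with hc' | hc'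
    · have hc2 : -c ≠ 0 := neg_ne_zero.2 hc
      have e : co i (Homeomorph.mulLeft₀ c hc) = co i (Homeomorph.neg ℝ) *
          co i (Homeomorph.mulLeft₀ (-c) hc2) := by
        ext x j
        change update x i (c * x i) j = update (update x i (-c * x i)) i (-(update x i (-c * x i) i)) j
        simp
      rw [e]
      apply A.mul_mem
      · exact hre i _ (fun x => rfl)
      · apply hone i (Homeomorph.mulLeft₀ (-c) hc2) _ _ (fun x => rfl)
        intro a b hab
        change -c * a < -c * b
        nlinarith
    · apply hone i (Homeomorph.mulLeft₀ c hc) _ _ (fun x => rfl)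
      intro a b hab
      change c * a < c * b
      nlinarith
  have key : ∀ s : Finset (Fin n), ∀ G : E n ≃ₜ E n,
      (∀ x j, G x j = (if j ∈ s then D j else 1) * x j) → G ∈ A := by
    intro s
    induction s using Finset.induction_on with
    | empty =>
      intro G hG
      have : G = 1 := by
        ext x j
        rw [hG]; simp
      rw [this]; exact A.one_mem
    | insert j s hj ih =>
      intro G hG
      set σ := co j (Homeomorph.mulLeft₀ (D j) (hD j)) with hσ
      have hσA : σ ∈ A := h1 j _ _
      have h2 : σ⁻¹ * G ∈ A := by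
        apply ih
        intro x k
        change update (G x) j ((D j)⁻¹ * G x j) k = _
        by_cases hk : k = j
        · subst hk
          simp [hG, hj, hD k]
        · simp [hG, hk]
      have : G = σ * (σ⁻¹ * G) := by group
      rw [this]; exact A.mul_mem hσA h2
  apply key Finset.univ
  intro x j
  rw [hh]; simp

theorem transvec_mem {n : ℕ} (A : Subgroup (E n ≃ₜ E n)) (hsh : ∀ i, HasShear A i)
    (t : Matrix.TransvectionStruct (Fin n) ℝ) (M : (Matrix (Fin n) (Fin n) ℝ)ˣ)
    (hM : M.1 = t.toMatrix) : matH M ∈ A := by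
  obtain ⟨i, j, hij, c⟩ := t
  have hc : Continuous (fun x : E n => c * x j) := by fun_prop
  have hi : Ind i (fun x : E n => c * x j) := by
    intro x a
    simp [hij.symm]
  apply hsh i _ hc hi
  intro x
  rw [matH_apply, hM]
  ext k
  simp only [Matrix.TransvectionStruct.toMatrix_mk, Matrix.transvection, Matrix.add_mulVec,
    Matrix.one_mulVec, Pi.add_apply]
  by_cases hk : k = i
  · subst hk
    simp [Matrix.mulVec, dotProduct, Matrix.single_apply]
  · have hk' : i ≠ k := fun h => hk h.symm
    simp [Matrix.mulVec, dotProduct, hk, hk']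

theorem lin : S_Lin := by
  intro n A hone hsh hre
  refine ⟨?_, trans_mem A hsh⟩
  intro T
  set M0 : Matrix (Fin n) (Fin n) ℝ := LinearMap.toMatrix' (T : E n →ₗ[ℝ] E n) with hM0
  have hdet : IsUnit M0 := by
    have := LinearEquiv.isUnit_det' (T : E n ≃ₗ[ℝ] E n)
    rw [Matrix.isUnit_iff_isUnit_det, hM0, LinearMap.det_toMatrix']
    exact this
  obtain ⟨L, L', D, hLD⟩ := Matrix.Pivot.exists_list_transvec_mul_diagonal_mul_list_transvec M0
  set u : Matrix.TransvectionStruct (Fin n) ℝ → (Matrix (Fin n) (Fin n) ℝ)ˣ := fun t =>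
    ⟨t.toMatrix, t.inv.toMatrix, t.mul_inv, t.inv_mul⟩ with hu
  have hL : ∀ l : List (Matrix.TransvectionStruct (Fin n) ℝ),
      ((l.map u).prod : (Matrix (Fin n) (Fin n) ℝ)ˣ).1 = (l.map Matrix.TransvectionStruct.toMatrix).prod := by
    intro l
    induction l with
    | nil => simp
    | cons a l ih =>
      rw [List.map_cons, List.prod_cons, Units.val_mul, ih, List.map_cons, List.prod_cons]
  have hLA : ∀ l : List (Matrix.TransvectionStruct (Fin n) ℝ), matH (l.map u).prod ∈ A := by
    intro l
    induction l with
    | nil => simp [A.one_mem]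
    | cons a l ih =>
      simp only [List.map_cons, List.prod_cons, map_mul]
      exact A.mul_mem (transvec_mem A hsh a _ rfl) ih
  rw [← hL, ← hL] at hLD
  have hD : IsUnit (Matrix.diagonal D) := by
    have : Matrix.diagonal D = ((L.map u).prod⁻¹).1 * M0 * ((L'.map u).prod⁻¹).1 := by
      rw [hLD]
      simp [mul_assoc]
    rw [this]
    exact ((Units.isUnit _).mul hdet).mul (Units.isUnit _)
  have hDi : ∀ i, D i ≠ 0 := by
    rw [Matrix.isUnit_iff_isUnit_det, Matrix.det_diagonal, isUnit_iff_ne_zero, Finset.prod_ne_zero_iff] at hD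
    exact fun i => hD i (Finset.mem_univ i)
  obtain ⟨d, hd⟩ := hD
  have hdA : matH d ∈ A := by
    apply diag_mem A hone hre D hDi
    intro x j
    rw [matH_apply, hd, Matrix.mulVec_diagonal]
  have hT : T.toHomeomorph = matH ((L.map u).prod * d * (L'.map u).prod) := by
    ext x j
    rw [matH_apply]
    simp only [Units.val_mul]
    rw [hd, ← hLD, hM0]
    simp
  rw [hT]
  simp only [map_mul]
  exact A.mul_mem (A.mul_mem (hLA L) hdA) (hLA L')

end Pool.Agent.W641.FB
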