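import Pool.Agent.W641.FB.Defs

open Set Function Filter Topology

namespace Pool.Agent.W641.FB

/-- a small Lipschitz perturbation of the identity is a homeomorphism -/
theorem lip_homeo {n : ℕ} (u : E n → E n) (hu : LipschitzWith (1/4) u) :
    ∃ G : E n ≃ₜ E n, ∀ x, G x = x + u x := by
  have h : ApproximatesLinearOn (fun x => x + u x) ((ContinuousLinearEquiv.refl ℝ (E n) : E n ≃L[ℝ] E n) : E n →L[ℝ] E n)
      univ (1/4) := by
    intro x _ y _
    have := hu.dist_le_mul x y
    rw [dist_eq_norm, dist_eq_norm] at this
    simpa [sub_sub, add_sub_add_comm] using! this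
  refine ⟨h.toHomeomorph _ ?_, fun x => rfl⟩
  rcases subsingleton_or_nontrivial (E n) with hs | hs
  · exact Or.inl hs
  · right
    simp
    norm_num

/-- restriction of a perturbation to some coordinates -/
def cut {n : ℕ} (u : E n → E n) (s : Finset (Fin n)) : E n → E n :=
  fun x j => if j ∈ s then u x j else 0

theorem cut_lip {n : ℕ} {u : E n → E n} (hu : LipschitzWith (1/4) u) (s : Finset (Fin n)) :
    LipschitzWith (1/4) (cut u s) := by
  refine LipschitzWith.of_dist_le_mul fun x y => ?_
  have h := hu.dist_le_mul x y
  refine le_trans ?_ h
  rw [dist_pi_le_iff dist_nonneg]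
  intro j
  by_cases hj : j ∈ s
  · simp only [cut, hj, if_true]
    exact dist_le_pi_dist (u x) (u y) j
  · simp [cut, hj, dist_nonneg]

theorem lip : S_Lip := by
  intro n A hfib u hu h hh
  have key : ∀ s : Finset (Fin n), ∀ G : E n ≃ₜ E n, (∀ x, G x = x + cut u s x) → G ∈ A := by
    intro s
    induction s using Finset.induction_on with
    | empty =>
      intro G hG
      have : G = 1 := by
        ext x j
        rw [hG]; simp [cut]
      rw [this]; exact A.one_mem
    | insert j s hj ih =>
      intro G hG
      obtain ⟨G0, hG0⟩ := lip_homeo (cut u s) (cut_lip hu s)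
      have hG0A := ih G0 hG0
      have hinv : ∀ x y : E n, ‖G0.symm x - G0.symm y‖ ≤ 4 / 3 * ‖x - y‖ := by
        intro x y
        set a := G0.symm x
        set b := G0.symm y
        have hx : x = a + cut u s a := by rw [← hG0]; simp [a]
        have hy : y = b + cut u s b := by rw [← hG0]; simp [b]
        have h1 := (cut_lip hu s).dist_le_mul a b
        rw [dist_eq_norm, dist_eq_norm] at h1
        have h2 : ‖a - b‖ ≤ ‖x - y‖ + ‖cut u s a - cut u s b‖ := by
          have : a - b = (x - y) - (cut u s a - cut u s b) := by rw [hx, hy]; abel
          rw [this]; exact norm_sub_le _ _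
        have h3 : ((1/4 : NNReal) : ℝ) = 1 / 4 := by norm_num
        rw [h3] at h1
        linarith
      have hγ : ∀ y, (G * G0⁻¹) y = update y j (y j + u (G0.symm y) j) := by
        intro y
        set x := G0.symm y with hx
        have hy : y = x + cut u s x := by rw [← hG0]; simp [x]
        rw [Homeomorph.mul_apply, Homeomorph.inv_apply, ← hx, hG]
        ext k
        by_cases hk : k = j
        · subst hk
          simp only [Pi.add_apply, update_self]
          rw [hy]
          simp [cut, hj]
        · simp only [Pi.add_apply, ne_eq, hk, not_false_eq_true, update_of_ne]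
          rw [hy]
          simp [cut, hk]
      have hγA : G * G0⁻¹ ∈ A := by
        apply hfib j
        · intro x k hk
          rw [hγ]; simp [hk]
        · intro x a b hab
          rw [hγ, hγ]
          simp only [update_self]
          have h1 := hu.dist_le_mul (G0.symm (update x j a)) (G0.symm (update x j b))
          have h2 := hinv (update x j a) (update x j b)
          have h3 : ‖update x j a - update x j b‖ ≤ b - a := by
            rw [pi_norm_le_iff_of_nonneg (by linarith)]
            intro k
            by_cases hk : k = j
            · subst hk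
              simp only [Pi.sub_apply, update_self, Real.norm_eq_abs]
              rw [abs_sub_comm, abs_of_pos (by linarith)]
            · simp [hk]; linarith
          rw [dist_eq_norm, dist_eq_norm] at h1
          have h4 := norm_le_pi_norm (u (G0.symm (update x j a)) - u (G0.symm (update x j b))) j
          rw [Pi.sub_apply, Real.norm_eq_abs] at h4
          have h5 := (abs_le.1 (le_refl |u (G0.symm (update x j a)) j - u (G0.symm (update x j b)) j|)).2
          have h6 : ((1/4 : NNReal) : ℝ) = 1 / 4 := by norm_num
          rw [h6] at h1
          linarith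
      have : G = (G * G0⁻¹) * G0 := by group
      rw [this]
      exact A.mul_mem hγA hG0A
  apply key Finset.univ
  intro x
  rw [hh]
  ext j
  simp [cut]

end Pool.Agent.W641.FB
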