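import Pool.Agent.W641.FB.Str

open Set Function Filter Topology

namespace Pool.Agent.W641.FB

/-- `g` is a shear function of `A` in the coordinate `i`. -/
structure Lm {n : ℕ} (A : Subgroup (E n ≃ₜ E n)) (i : Fin n) (g : E n → ℝ) : Prop where
  cont : Continuous g
  ind : Ind i g
  mem : ∀ h : E n ≃ₜ E n, (∀ x, h x = update x i (x i + g x)) → h ∈ A

theorem Lm.sh {n : ℕ} {A : Subgroup (E n ≃ₜ E n)} {i : Fin n} {g : E n → ℝ} (h : Lm A i g) :
    shH i g h.cont h.ind ∈ A := h.mem _ fun _ => rfl

theorem Lm_of {n : ℕ} {A : Subgroup (E n ≃ₜ E n)} {i : Fin n} {g : E n → ℝ} (hc : Continuous g)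
    (hi : Ind i g) (h : shH i g hc hi ∈ A) : Lm A i g := by
  refine ⟨hc, hi, fun f hf => ?_⟩
  have : f = shH i g hc hi := by ext x; rw [hf]; rfl
  rw [this]; exact h

theorem Lm_add {n : ℕ} {A : Subgroup (E n ≃ₜ E n)} {i : Fin n} {g g' : E n → ℝ} (h : Lm A i g)
    (h' : Lm A i g') : Lm A i (fun x => g x + g' x) := by
  have hi : Ind i (fun x => g x + g' x) := by
    intro x a; simp only [h.ind x a, h'.ind x a]
  apply Lm_of (h.cont.add h'.cont) hi
  have : shH i _ (h.cont.add h'.cont) hi = shH i g h.cont h.ind * shH i g' h'.cont h'.ind := by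
    ext x j
    change update x i (x i + (g x + g' x)) j = update (update x i (x i + g' x)) i
      (update x i (x i + g' x) i + g (update x i (x i + g' x))) j
    rw [h.ind, update_idem, update_self, add_comm (g x), add_assoc]
  rw [this]
  exact A.mul_mem h.sh h'.sh

theorem Lm_neg {n : ℕ} {A : Subgroup (E n ≃ₜ E n)} {i : Fin n} {g : E n → ℝ} (h : Lm A i g) :
    Lm A i (fun x => - g x) := by
  have hi : Ind i (fun x => - g x) := by
    intro x a; simp only [h.ind x a]
  apply Lm_of h.cont.neg hi
  have : shH i _ h.cont.neg hi = (shH i g h.cont h.ind)⁻¹ := by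
    ext x j
    rfl
  rw [this]
  exact A.inv_mem h.sh

theorem Lm_zero {n : ℕ} {A : Subgroup (E n ≃ₜ E n)} {i : Fin n} : Lm A i (fun _ => 0) := by
  have hi : Ind i (fun _ : E n => (0:ℝ)) := fun _ _ => rfl
  apply Lm_of continuous_const hi
  have : shH i (fun _ : E n => (0:ℝ)) continuous_const hi = 1 := by
    ext x j
    change update x i (x i + 0) j = x j
    simp
  rw [this]; exact A.one_mem

theorem Lm_sum {n : ℕ} {A : Subgroup (E n ≃ₜ E n)} {i : Fin n} {ι : Type*} (s : Finset ι)
    (g : ι → E n → ℝ) (h : ∀ k ∈ s, Lm A i (g k)) : Lm A i (fun x => ∑ k ∈ s, g k x) := by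
  classical
  induction s using Finset.induction_on with
  | empty => simpa using Lm_zero
  | insert a s ha ih =>
    have h1 := Lm_add (h a (Finset.mem_insert_self a s))
      (ih fun k hk => h k (Finset.mem_insert_of_mem hk))
    have e : (fun x => ∑ k ∈ insert a s, g k x) = fun x => g a x + ∑ k ∈ s, g k x := by
      ext x; rw [Finset.sum_insert ha]
    rw [e]; exact h1

theorem Lm_lim {n : ℕ} {A : Subgroup (E n ≃ₜ E n)} (hA : CG A) {i : Fin n} {g : E n → ℝ}
    (hc : Continuous g) (hi : Ind i g)
    (h : ∀ R ε : ℝ, 0 < ε → ∃ g', Lm A i g' ∧ ∀ x : E n, ‖x‖ ≤ R → |g' x - g x| ≤ ε) :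
    Lm A i g := by
  apply Lm_of hc hi
  apply hA
  intro R ε hε
  obtain ⟨g', hg', hgg⟩ := h R ε hε
  refine ⟨_, hg'.sh, fun x hx => ?_⟩
  rw [pi_norm_le_iff_of_nonneg hε.le]
  intro j
  change ‖update x i (x i + g' x) j - update x i (x i + g x) j‖ ≤ ε
  by_cases hj : j = i
  · subst hj
    simp only [update_self, Real.norm_eq_abs, add_sub_add_left_eq_sub]
    exact hgg x hx
  · simp [hj, hε.le]

theorem Lm_const {n : ℕ} {A : Subgroup (E n ≃ₜ E n)} {i : Fin n} (hone : HasOne A i) (c : ℝ) :
    Lm A i (fun _ => c) := by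
  refine ⟨continuous_const, fun _ _ => rfl, fun h hh => ?_⟩
  exact hone (Homeomorph.addRight c) (fun a b hab => by
    change a + c < b + c
    linarith) h hh

theorem Lm_line0 {n : ℕ} {A : Subgroup (E n ≃ₜ E n)} {i j : Fin n} (hij : i ≠ j)
    (hone : HasOne A j)
    (hesh : ∀ h : E n ≃ₜ E n, (∀ x, h x = update x i (x i + x j)) → h ∈ A)
    (f : ℝ ≃ₜ ℝ) (hf : StrictMono f) : Lm A i (fun x => f (x j)) := by
  have hc : Continuous (fun x : E n => f (x j)) := f.continuous.comp (continuous_apply j)
  have hi : Ind i (fun x : E n => f (x j)) := by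
    intro x a; simp [hij.symm]
  apply Lm_of hc hi
  have hc0 : Continuous (fun x : E n => x j) := continuous_apply j
  have hi0 : Ind i (fun x : E n => x j) := by
    intro x a; simp [hij.symm]
  have h1 : shH i _ hc0 hi0 ∈ A := hesh _ fun _ => rfl
  have h2 : co j f ∈ A := hone f hf _ fun _ => rfl
  have : shH i _ hc hi = (co j f)⁻¹ * shH i _ hc0 hi0 * co j f := by
    ext x k
    change update x i (x i + f (x j)) k = update (update (update x j (f (x j))) i
      (update x j (f (x j)) i + update x j (f (x j)) j)) j (f.symm (update (update x j (f (x j))) i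
      (update x j (f (x j)) i + update x j (f (x j)) j) j)) k
    by_cases hkj : k = j
    · subst hkj
      simp [hij.symm]
    · by_cases hki : k = i
      · subst hki
        simp [hij]
      · simp [hkj, hki]
  rw [this]
  exact A.mul_mem (A.mul_mem (A.inv_mem h2) h1) h2

theorem Lm_mono {n : ℕ} {A : Subgroup (E n ≃ₜ E n)} {i j : Fin n} (hij : i ≠ j)
    (hone : HasOne A j)
    (hesh : ∀ h : E n ≃ₜ E n, (∀ x, h x = update x i (x i + x j)) → h ∈ A)
    (v : ℝ → ℝ) (hv : Monotone v) (hvc : Continuous v) : Lm A i (fun x => v (x j)) := by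
  have hm : StrictMono (fun y => v y + y) := fun a b hab => add_lt_add_of_le_of_lt (hv hab.le) hab
  have hs : Surjective (fun y => v y + y) := by
    apply (hvc.add continuous_id).surjective
    · apply tendsto_atTop_mono' (f₁ := fun y => v 0 + y)
      · filter_upwards [eventually_ge_atTop 0] with y hy
        change v 0 + y ≤ v y + y
        linarith [hv hy]
      · exact tendsto_atTop_add_const_left _ _ tendsto_id
    · apply tendsto_atBot_mono' (f₁ := fun y => v 0 + y)
      · filter_upwards [eventually_le_atBot 0] with y hy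
        change v y + y ≤ v 0 + y
        linarith [hv hy]
      · exact tendsto_atBot_add_const_left _ _ tendsto_id
  have h1 := Lm_line0 hij hone hesh (hm.orderIsoOfSurjective _ hs).toHomeomorph hm
  have h2 := Lm_line0 hij hone hesh (Homeomorph.refl ℝ) strictMono_id
  have h3 := Lm_add h1 (Lm_neg h2)
  have e : (fun x : E n => v (x j)) = fun x => ((hm.orderIsoOfSurjective _ hs).toHomeomorph (x j)) +
      -((Homeomorph.refl ℝ) (x j)) := by
    ext x
    change v (x j) = (v (x j) + x j) + -(x j)
    ring
  rw [e]; exact h3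

theorem Lm_anti {n : ℕ} {A : Subgroup (E n ≃ₜ E n)} {i j : Fin n} (hij : i ≠ j)
    (hone : HasOne A j)
    (hesh : ∀ h : E n ≃ₜ E n, (∀ x, h x = update x i (x i + x j)) → h ∈ A)
    (v : ℝ → ℝ) (hv : Antitone v) (hvc : Continuous v) : Lm A i (fun x => v (x j)) := by
  have h1 := Lm_neg (Lm_mono hij hone hesh (fun y => - v y) hv.neg hvc.neg)
  simpa using h1

theorem Lm_exp1 {n : ℕ} {A : Subgroup (E n ≃ₜ E n)} {i j : Fin n} (hij : i ≠ j)
    (hone : HasOne A j)
    (hesh : ∀ h : E n ≃ₜ E n, (∀ x, h x = update x i (x i + x j)) → h ∈ A)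
    (c a : ℝ) : Lm A i (fun x => c * Real.exp (a * x j)) := by
  have hcont : Continuous (fun y : ℝ => c * Real.exp (a * y)) := by fun_prop
  rcases le_total 0 c with hc | hc <;> rcases le_total 0 a with ha | ha
  · apply Lm_mono hij hone hesh (fun y => c * Real.exp (a * y)) _ hcont
    intro y z hyz
    exact mul_le_mul_of_nonneg_left (Real.exp_le_exp.2 (mul_le_mul_of_nonneg_left hyz ha)) hc
  · apply Lm_anti hij hone hesh (fun y => c * Real.exp (a * y)) _ hcont
    intro y z hyz
    exact mul_le_mul_of_nonneg_left (Real.exp_le_exp.2 (mul_le_mul_of_nonpos_left hyz ha)) hc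
  · apply Lm_anti hij hone hesh (fun y => c * Real.exp (a * y)) _ hcont
    intro y z hyz
    exact mul_le_mul_of_nonpos_left (Real.exp_le_exp.2 (mul_le_mul_of_nonneg_left hyz ha)) hc
  · apply Lm_mono hij hone hesh (fun y => c * Real.exp (a * y)) _ hcont
    intro y z hyz
    exact mul_le_mul_of_nonpos_left (Real.exp_le_exp.2 (mul_le_mul_of_nonpos_left hyz ha)) hc

theorem Lm_lin1 {n : ℕ} {A : Subgroup (E n ≃ₜ E n)} {i j : Fin n} (hij : i ≠ j)
    (hone : HasOne A j)
    (hesh : ∀ h : E n ≃ₜ E n, (∀ x, h x = update x i (x i + x j)) → h ∈ A)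
    (c : ℝ) : Lm A i (fun x => c * x j) := by
  have hcont : Continuous (fun y : ℝ => c * y) := by fun_prop
  rcases le_total 0 c with hc | hc
  · apply Lm_mono hij hone hesh (fun y => c * y) _ hcont
    intro y z hyz
    exact mul_le_mul_of_nonneg_left hyz hc
  · apply Lm_anti hij hone hesh (fun y => c * y) _ hcont
    intro y z hyz
    exact mul_le_mul_of_nonpos_left hyz hc

theorem Lm_conj {n : ℕ} {A : Subgroup (E n ≃ₜ E n)} {i j : Fin n} (hij : i ≠ j) {g g' : E n → ℝ}
    (h : Lm A i g) (h' : Lm A j g') (hi' : Ind i g') :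
    Lm A i (fun x => g (update x j (x j + g' x))) := by
  have hc : Continuous (fun x => g (update x j (x j + g' x))) :=
    h.cont.comp (continuous_id.update j ((continuous_apply j).add h'.cont))
  have hi : Ind i (fun x => g (update x j (x j + g' x))) := by
    intro x a
    change g (update (update x i a) j (update x i a j + g' (update x i a))) = _
    rw [hi', update_of_ne hij.symm, update_comm hij, h.ind]
  apply Lm_of hc hi
  have : shH i _ hc hi = (shH j g' h'.cont h'.ind)⁻¹ * shH i g h.cont h.ind * shH j g' h'.cont h'.ind := by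
    ext x k
    set y := update x j (x j + g' x) with hy
    have hyi : y i = x i := by simp [hy, hij]
    change update x i (x i + g y) k = update (update y i (y i + g y)) j
      (update y i (y i + g y) j - g' (update y i (y i + g y))) k
    rw [hi', hyi, update_of_ne hij.symm]
    have h2 : g' y = g' x := h'.ind _ _
    have h3 : y j = x j + g' x := by simp [hy]
    rw [h2, h3, add_sub_cancel_right]
    by_cases hkj : k = j
    · subst hkj
      simp [hij.symm]
    · by_cases hki : k = i
      · subst hki
        simp [hij]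
      · simp [hkj, hki, hy]
  rw [this]
  exact A.mul_mem (A.mul_mem (A.inv_mem h'.sh) h.sh) h'.sh

/-- linear functional not involving `x_i` -/
def lf {n : ℕ} (i : Fin n) (a x : E n) : ℝ := ∑ k ∈ Finset.univ.erase i, a k * x k

theorem lf_cont {n : ℕ} (i : Fin n) (a : E n) : Continuous (lf i a) := by
  unfold lf; fun_prop

theorem lf_ind {n : ℕ} (i : Fin n) (a : E n) : Ind i (lf i a) := by
  intro x b
  unfold lf
  apply Finset.sum_congr rfl
  intro k hk
  rw [update_of_ne (Finset.ne_of_mem_erase hk)]

theorem Lm_exp {n : ℕ} {A : Subgroup (E n ≃ₜ E n)} (hone : ∀ i, HasOne A i)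
    (hesh : ∀ i j, i ≠ j → ∀ h : E n ≃ₜ E n, (∀ x, h x = update x i (x i + x j)) → h ∈ A)
    (i : Fin n) (c : ℝ) (a : E n) : Lm A i (fun x => c * Real.exp (lf i a x)) := by
  by_cases h : ∀ j, j ≠ i → a j = 0
  · have : (fun x => c * Real.exp (lf i a x)) = fun _ => c := by
      ext x
      have : lf i a x = 0 := by
        unfold lf
        apply Finset.sum_eq_zero
        intro k hk
        rw [h k (Finset.ne_of_mem_erase hk), zero_mul]
      rw [this, Real.exp_zero, mul_one]
    rw [this]
    exact Lm_const (hone i) c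
  · push Not at h
    obtain ⟨j, hji, haj⟩ := h
    have hij : i ≠ j := hji.symm
    have h1 := Lm_exp1 hij (hone j) (hesh i j hij) c (a j)
    have h2 : Lm A j (fun x => ∑ k ∈ (Finset.univ.erase i).erase j, (a k / a j) * x k) := by
      apply Lm_sum
      intro k hk
      have hkj : j ≠ k := (Finset.ne_of_mem_erase hk).symm
      exact Lm_lin1 hkj (hone k) (hesh j k hkj) _
    have hi' : Ind i (fun x : E n => ∑ k ∈ (Finset.univ.erase i).erase j, (a k / a j) * x k) := by
      intro x b
      apply Finset.sum_congr rfl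
      intro k hk
      rw [update_of_ne (Finset.ne_of_mem_erase (Finset.mem_of_mem_erase hk))]
    have h3 := Lm_conj hij h1 h2 hi'
    have e : (fun x => c * Real.exp (lf i a x)) = fun x : E n => c * Real.exp (a j * (update x j (x j +
        ∑ k ∈ (Finset.univ.erase i).erase j, (a k / a j) * x k)) j) := by
      ext x
      rw [update_self]
      congr 2
      unfold lf
      rw [← Finset.add_sum_erase _ _ (Finset.mem_erase.2 ⟨hji, Finset.mem_univ j⟩), mul_add,
        Finset.mul_sum]
      congr 1
      apply Finset.sum_congr rfl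
      intro k _
      field_simp
    rw [e]; exact h3

theorem shear : S_Shear := by
  intro n A hA hone hesh i g hg hgi
  suffices h : Lm A i g from h.mem
  apply Lm_lim hA hg hgi
  intro R ε hε
  set K : Set (E n) := Metric.closedBall 0 R ∩ {x | x i = 0} with hK
  have hKc : IsCompact K := (isCompact_closedBall 0 R).inter_right
    (isClosed_eq (continuous_apply i) continuous_const)
  have : CompactSpace K := isCompact_iff_compactSpace.1 hKc
  set φ : E n → C(K, ℝ) := fun a => ⟨fun x => Real.exp (lf i a x.1),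
    Real.continuous_exp.comp ((lf_cont i a).comp continuous_subtype_val)⟩ with hφ
  let M : Submonoid C(K, ℝ) :=
    { carrier := Set.range φ
      mul_mem' := by
        rintro _ _ ⟨a, rfl⟩ ⟨b, rfl⟩
        refine ⟨a + b, ?_⟩
        ext x
        change Real.exp (lf i (a + b) x.1) = Real.exp (lf i a x.1) * Real.exp (lf i b x.1)
        rw [← Real.exp_add]
        congr 1
        unfold lf
        rw [← Finset.sum_add_distrib]
        apply Finset.sum_congr rfl
        intro k _
        rw [Pi.add_apply]; ring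
      one_mem' := by
        refine ⟨0, ?_⟩
        ext x
        change Real.exp (lf i 0 x.1) = 1
        simp [lf] }
  have hspan : Subalgebra.toSubmodule (Algebra.adjoin ℝ (Set.range φ)) =
      Submodule.span ℝ (Set.range φ) := by
    apply Algebra.adjoin_eq_span_of_subset
    have : Submonoid.closure (Set.range φ) = M := Submonoid.closure_eq M
    rw [this]
    exact Submodule.subset_span
  have hsep : (Algebra.adjoin ℝ (Set.range φ)).SeparatesPoints := by
    intro x y hxy
    have : ∃ k, x.1 k ≠ y.1 k := by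
      by_contra hcon
      push Not at hcon
      exact hxy (Subtype.ext (funext hcon))
    obtain ⟨k, hk⟩ := this
    have hki : k ≠ i := by
      rintro rfl
      apply hk
      have h1 : x.1 k = 0 := x.2.2
      have h2 : y.1 k = 0 := y.2.2
      rw [h1, h2]
    refine ⟨φ (Pi.single k 1), ⟨φ (Pi.single k 1), Algebra.subset_adjoin ⟨_, rfl⟩, rfl⟩, ?_⟩
    have hlf : ∀ z : E n, lf i (Pi.single k 1) z = z k := by
      intro z
      unfold lf
      rw [Finset.sum_eq_single k]
      · simp
      · intro l _ hl; simp [hl]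
      · intro h; exact absurd (Finset.mem_erase.2 ⟨hki, Finset.mem_univ k⟩) h
    change Real.exp (lf i (Pi.single k 1) x.1) ≠ Real.exp (lf i (Pi.single k 1) y.1)
    rw [hlf, hlf]
    exact fun h => hk (Real.exp_injective h)
  obtain ⟨w, hw⟩ := ContinuousMap.exists_mem_subalgebra_near_continuous_of_separatesPoints
    (Algebra.adjoin ℝ (Set.range φ)) hsep (fun x : K => g x.1) (hg.comp continuous_subtype_val) ε hε
  have hrep : ∀ w ∈ Submodule.span ℝ (Set.range φ), ∀ c : ℝ, ∃ g', Lm A i g' ∧
      ∀ x : K, c * w x = g' x.1 := by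
    intro w hw
    induction hw using Submodule.span_induction with
    | mem w hw =>
      obtain ⟨a, rfl⟩ := hw
      intro c
      exact ⟨_, Lm_exp hone hesh i c a, fun x => rfl⟩
    | zero =>
      intro c
      exact ⟨_, Lm_zero, fun x => by simp⟩
    | add u v _ _ hu hv =>
      intro c
      obtain ⟨g1, h1, h1'⟩ := hu c
      obtain ⟨g2, h2, h2'⟩ := hv c
      refine ⟨_, Lm_add h1 h2, fun x => ?_⟩
      rw [← h1', ← h2', ContinuousMap.add_apply, mul_add]
    | smul r u _ hu =>
      intro c
      obtain ⟨g1, h1, h1'⟩ := hu (c * r)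
      refine ⟨g1, h1, fun x => ?_⟩
      rw [← h1', ContinuousMap.smul_apply, smul_eq_mul, mul_assoc]
  obtain ⟨g', hg', hg'w⟩ := hrep w.1 (by rw [← hspan]; exact w.2) 1
  refine ⟨g', hg', fun x hx => ?_⟩
  have hxK : update x i 0 ∈ K := by
    refine ⟨?_, by simp⟩
    rw [mem_closedBall_zero_iff]
    refine le_trans ?_ hx
    rw [pi_norm_le_iff_of_nonneg (norm_nonneg x)]
    intro k
    by_cases hk : k = i
    · subst hk; simp
    · simp only [hk, update_of_ne, ne_eq, not_false_eq_true]
      exact norm_le_pi_norm x k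
  have h1 := hw ⟨_, hxK⟩
  have h2 := hg'w ⟨_, hxK⟩
  rw [one_mul] at h2
  rw [Real.norm_eq_abs, h2] at h1
  change |g' (update x i 0) - g (update x i 0)| < ε at h1
  rw [hg'.ind, hgi] at h1
  exact h1.le

end Pool.Agent.W641.FB
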