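import Pool.Agent.W641.FB.One
import Pool.Agent.W641.FB.Lip
import Pool.Agent.W641.FB.Lin
import Pool.Agent.W641.FB.Shear
import Pool.Agent.W991.FB.Diff

open Set Function Filter Topology
open scoped ContDiff

namespace Pool.Agent.W641.FB

/-- The elementary shear `x_i ↦ x_i + x_j`. -/
def esh {n : ℕ} (i j : Fin n) (hij : i ≠ j) : E n ≃ₜ E n where
  toFun x := update x i (x i + x j)
  invFun x := update x i (x i - x j)
  left_inv x := by
    have h : j ≠ i := hij.symm
    simp [h]
  right_inv x := by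
    have h : j ≠ i := hij.symm
    simp [h]
  continuous_toFun := continuous_id.update i ((continuous_apply i).add (continuous_apply j))
  continuous_invFun := continuous_id.update i ((continuous_apply i).sub (continuous_apply j))

theorem co_smooth {n : ℕ} (i : Fin n) (f : ℝ ≃ₜ ℝ) (hf : ContDiff ℝ ω f)
    (hf' : ContDiff ℝ ω f.symm) : ContDiff ℝ ω (co i f) ∧ ContDiff ℝ ω (co i f).symm := by
  have key : ∀ g : ℝ → ℝ, ContDiff ℝ ω g → ContDiff ℝ ω (fun x : E n => update x i (g (x i))) := by
    intro g hg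
    rw [contDiff_pi]
    intro j
    by_cases hj : j = i
    · subst hj
      simp only [update_self]
      exact hg.comp (contDiff_apply ℝ ℝ j)
    · simpa [hj] using contDiff_apply ℝ ℝ j
  exact ⟨key f hf, key f.symm hf'⟩

theorem esh_smooth {n : ℕ} (i j : Fin n) (hij : i ≠ j) :
    ContDiff ℝ ω (esh i j hij) ∧ ContDiff ℝ ω (esh i j hij).symm := by
  constructor
  · change ContDiff ℝ ω (fun x : E n => update x i (x i + x j))
    rw [contDiff_pi]
    intro k
    by_cases hk : k = i
    · subst hk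
      simpa using (contDiff_apply ℝ ℝ k).add (contDiff_apply ℝ ℝ j)
    · simpa [hk] using contDiff_apply ℝ ℝ k
  · change ContDiff ℝ ω (fun x : E n => update x i (x i - x j))
    rw [contDiff_pi]
    intro k
    by_cases hk : k = i
    · subst hk
      simpa using (contDiff_apply ℝ ℝ k).sub (contDiff_apply ℝ ℝ j)
    · simpa [hk] using contDiff_apply ℝ ℝ k

theorem one_lt_e1 : 1 < Real.exp 1 := Real.one_lt_exp_iff.2 one_pos
theorem one_lt_e2 : 1 < Real.exp √2 := Real.one_lt_exp_iff.2 (by positivity)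

/-- The finite set of generators. -/
noncomputable def GenSet (n : ℕ) : Set (E n ≃ₜ E n) :=
  (⋃ i : Fin n, {co i (Homeomorph.addRight 1), co i (Homeomorph.addRight √2),
    co i (Homeomorph.mulLeft₀ 2 two_ne_zero), co i (hsHomeo _ one_lt_e1), co i (hsHomeo _ one_lt_e2),
    co i (Homeomorph.neg ℝ)}) ∪
  ⋃ i : Fin n, ⋃ j : Fin n, ⋃ h : i ≠ j, {esh i j h}

theorem GenSet_finite (n : ℕ) : (GenSet n).Finite := by
  unfold GenSet
  apply Set.Finite.union
  · exact Set.finite_iUnion fun i => Set.toFinite _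
  · exact Set.finite_iUnion fun i => Set.finite_iUnion fun j => Set.finite_iUnion fun h =>
      Set.toFinite _

theorem GenSet_smooth (n : ℕ) : ∀ g ∈ GenSet n, ContDiff ℝ ω g ∧ ContDiff ℝ ω g.symm := by
  intro g hg
  rcases hg with hg | hg
  · simp only [mem_iUnion, mem_insert_iff, mem_singleton_iff] at hg
    obtain ⟨i, rfl | rfl | rfl | rfl | rfl | rfl⟩ := hg
    · apply co_smooth
      · change ContDiff ℝ ω (fun x : ℝ => x + 1); fun_prop
      · change ContDiff ℝ ω (fun x : ℝ => x + -1); fun_prop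
    · apply co_smooth
      · change ContDiff ℝ ω (fun x : ℝ => x + √2); fun_prop
      · change ContDiff ℝ ω (fun x : ℝ => x + -√2); fun_prop
    · apply co_smooth
      · change ContDiff ℝ ω (fun x : ℝ => 2 * x); fun_prop
      · change ContDiff ℝ ω (fun x : ℝ => 2⁻¹ * x); fun_prop
    · exact co_smooth _ _ (Hs_smooth _) (Hi_smooth one_lt_e1)
    · exact co_smooth _ _ (Hs_smooth _) (Hi_smooth one_lt_e2)
    · apply co_smooth
      · change ContDiff ℝ ω (fun x : ℝ => -x); fun_prop
      · change ContDiff ℝ ω (fun x : ℝ => -x); fun_prop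
  · simp only [mem_iUnion, mem_singleton_iff] at hg
    obtain ⟨i, j, h, rfl⟩ := hg
    exact esh_smooth i j h

theorem co_mem {n : ℕ} (A : Subgroup (E n ≃ₜ E n)) (hA : GenSet n ⊆ A) (i : Fin n) (f : ℝ ≃ₜ ℝ)
    (hf : co i f ∈ GenSet n) (h : E n ≃ₜ E n) (hh : ∀ x, h x = update x i (f (x i))) : h ∈ A := by
  have : h = co i f := by ext x; rw [hh]; rfl
  rw [this]; exact hA hf

theorem gens {n : ℕ} (A : Subgroup (E n ≃ₜ E n)) (hA : GenSet n ⊆ A) (i : Fin n) : Gens A i where
  t1 := co_mem A hA i (Homeomorph.addRight 1) (Or.inl (by simp only [mem_iUnion]; exact ⟨i, by simp⟩))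
  t2 := co_mem A hA i (Homeomorph.addRight √2) (Or.inl (by simp only [mem_iUnion]; exact ⟨i, by simp⟩))
  dbl := co_mem A hA i (Homeomorph.mulLeft₀ 2 two_ne_zero)
    (Or.inl (by simp only [mem_iUnion]; exact ⟨i, by simp⟩))
  h1 := co_mem A hA i (hsHomeo _ one_lt_e1) (Or.inl (by simp only [mem_iUnion]; exact ⟨i, by simp⟩))
  h2 := co_mem A hA i (hsHomeo _ one_lt_e2) (Or.inl (by simp only [mem_iUnion]; exact ⟨i, by simp⟩))

theorem refl_mem {n : ℕ} (A : Subgroup (E n ≃ₜ E n)) (hA : GenSet n ⊆ A) (i : Fin n) :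
    ∀ h : E n ≃ₜ E n, (∀ x, h x = update x i (-x i)) → h ∈ A :=
  co_mem A hA i (Homeomorph.neg ℝ) (Or.inl (by simp only [mem_iUnion]; exact ⟨i, by simp⟩))

theorem esh_mem {n : ℕ} (A : Subgroup (E n ≃ₜ E n)) (hA : GenSet n ⊆ A) (i j : Fin n) (hij : i ≠ j) :
    ∀ h : E n ≃ₜ E n, (∀ x, h x = update x i (x i + x j)) → h ∈ A := by
  intro h hh
  have : h = esh i j hij := by ext x; rw [hh]; rfl
  rw [this]
  refine hA (Or.inr ?_)
  simp only [mem_iUnion]
  exact ⟨i, j, hij, rfl⟩

/-- the group of `C¹` diffeomorphisms of `ℝⁿ` -/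
def Diff1 (n : ℕ) : Subgroup (E n ≃ₜ E n) where
  carrier := {h | ContDiff ℝ 1 h ∧ ContDiff ℝ 1 h.symm}
  mul_mem' {f g} hf hg := ⟨hf.1.comp hg.1, hg.2.comp hf.2⟩
  one_mem' := ⟨contDiff_id, contDiff_id⟩
  inv_mem' {f} hf := ⟨hf.2, hf.1⟩

theorem main0 (hTop : S_Top) (n : ℕ) :
    @closure _ (homeoTop n) (Subgroup.closure (GenSet n) : Set (E n ≃ₜ E n)) =
      @closure _ (homeoTop n) (Diff1 n : Set (E n ≃ₜ E n)) ∧
    (n = 1 → @Dense _ (homeoTop n) (Subgroup.closure (GenSet n) : Set (E n ≃ₜ E n))) := by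
  obtain ⟨A, hA, hcg⟩ := hTop n (Subgroup.closure (GenSet n))
  have hGA : GenSet n ⊆ A := by
    rw [hA]
    exact Subset.trans Subgroup.subset_closure (@subset_closure _ (homeoTop n) _)
  have hone : ∀ i, HasOne A i := fun i => one n A i hcg (gens A hGA i)
  have hshear : ∀ i, HasShear A i := shear n A hcg hone (fun i j hij => esh_mem A hGA i j hij)
  have hfib : ∀ i, HasFib A i := fun i => fib n A i hcg (hshear i) (str n A i hcg (hshear i) (hone i))
  obtain ⟨hlin, htr⟩ := lin n A hone hshear (refl_mem A hGA)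
  have hd : (Diff1 n : Set (E n ≃ₜ E n)) ⊆ A := fun h hh =>
    Pool.Agent.W991.FB.diff n A hcg (lip n A hfib) hlin htr h hh.1 hh.2
  refine ⟨Set.Subset.antisymm ?_ ?_, ?_⟩
  · apply @closure_mono _ (homeoTop n)
    change (Subgroup.closure (GenSet n)) ≤ Diff1 n
    rw [Subgroup.closure_le]
    intro g hg
    obtain ⟨h1, h2⟩ := GenSet_smooth n g hg
    exact ⟨h1.of_le le_top, h2.of_le le_top⟩
  · have := @closure_mono _ (homeoTop n) _ _ hd
    rw [hA, @closure_closure _ (homeoTop n)] at this
    exact this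
  · rintro rfl
    intro h
    rw [← hA]
    -- increasing or decreasing
    have hcont : Continuous (fun y : ℝ => h (fun _ => y) 0) := by fun_prop
    have hinj : Injective (fun y : ℝ => h (fun _ => y) 0) := by
      intro y z hyz
      have : h (fun _ => y) = h (fun _ => z) := by
        ext k; fin_cases k; exact hyz
      exact congrFun (h.injective this) 0
    have hup : ∀ (x : E 1) (a : ℝ), update x 0 a = fun _ => a := by
      intro x a; ext k; fin_cases k; simp
    rcases hcont.strictMono_of_inj hinj with hm | hm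
    · apply hfib 0 h
      · intro x j hj; exact absurd (Subsingleton.elim j 0) hj
      · intro x a b hab
        rw [hup, hup]
        exact hm hab
    · have h1 : co 0 (Homeomorph.neg ℝ) * h ∈ A := by
        apply hfib 0
        · intro x j hj; exact absurd (Subsingleton.elim j 0) hj
        · intro x a b hab
          rw [hup, hup]
          have := hm hab
          change update (h fun _ => a) 0 (-(h (fun _ => a) 0)) 0 <
            update (h fun _ => b) 0 (-(h (fun _ => b) 0)) 0
          simpa using this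
      have h2 : co 0 (Homeomorph.neg ℝ) ∈ A :=
        refl_mem A hGA 0 _ (fun x => rfl)
      exact (Subgroup.mul_mem_cancel_left A h2).1 h1

end Pool.Agent.W641.FB
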