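import Pool.Agent.W641.FB.Defs

open Set Function Filter Topology
open scoped ContDiff

namespace Pool.Agent.W641.FB

/-- the inverse of `Hs s` -/
noncomputable def Hi (s y : ℝ) : ℝ := ((1 + s) * y - (s - 1) * √(y ^ 2 + s)) / (2 * s)

theorem Hi_Hs {s : ℝ} (hs : 1 < s) (x : ℝ) : Hi s (Hs s x) = x := by
  have hs0 : 0 < s := by linarith
  set r := √(1 + x ^ 2) with hr
  have hr2 : r ^ 2 = 1 + x ^ 2 := Real.sq_sqrt (by positivity)
  have hr0 : 0 ≤ r := Real.sqrt_nonneg _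
  have hrx : |x| < r := by
    apply abs_lt_of_sq_lt_sq _ hr0
    rw [hr2]; linarith
  have hx := abs_lt.1 hrx
  have key : √((Hs s x) ^ 2 + s) = ((s - 1) * x + (s + 1) * r) / 2 := by
    rw [show (Hs s x) ^ 2 + s = (((s - 1) * x + (s + 1) * r) / 2) ^ 2 by
      unfold Hs
      rw [← hr]
      have : (((1 + s) * x + (s - 1) * r) / 2) ^ 2 + s - (((s - 1) * x + (s + 1) * r) / 2) ^ 2
        = s * (x ^ 2 - r ^ 2 + 1) := by ring
      rw [hr2] at this
      linarith]
    apply Real.sqrt_sq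
    nlinarith
  unfold Hi
  rw [key]
  unfold Hs
  rw [← hr]
  field_simp
  ring

theorem Hs_Hi {s : ℝ} (hs : 1 < s) (y : ℝ) : Hs s (Hi s y) = y := by
  have hs0 : 0 < s := by linarith
  set r := √(y ^ 2 + s) with hr
  have hr2 : r ^ 2 = y ^ 2 + s := Real.sq_sqrt (by positivity)
  have hr0 : 0 ≤ r := Real.sqrt_nonneg _
  have hrx : |y| < r := by
    apply abs_lt_of_sq_lt_sq _ hr0
    rw [hr2]; linarith
  have hx := abs_lt.1 hrx
  have key : √(1 + (Hi s y) ^ 2) = ((1 + s) * r - (s - 1) * y) / (2 * s) := by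
    rw [show 1 + (Hi s y) ^ 2 = (((1 + s) * r - (s - 1) * y) / (2 * s)) ^ 2 by
      unfold Hi
      rw [← hr]
      field_simp
      have : s ^ 2 * 2 ^ 2 + ((1 + s) * y - (s - 1) * r) ^ 2 - ((1 + s) * r - (s - 1) * y) ^ 2
        = 4 * s * (s + y ^ 2 - r ^ 2) := by ring
      rw [hr2] at this
      linarith]
    apply Real.sqrt_sq
    apply div_nonneg _ (by linarith)
    nlinarith
  unfold Hs
  rw [key]
  unfold Hi
  rw [← hr]
  field_simp
  ring

theorem Hs_smooth (s : ℝ) : ContDiff ℝ ω (Hs s) := by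
  unfold Hs
  have h1 : ContDiff ℝ ω (fun x : ℝ => √(1 + x ^ 2)) :=
    ContDiff.sqrt (by fun_prop) (fun x => by positivity)
  fun_prop

theorem Hi_smooth {s : ℝ} (hs : 1 < s) : ContDiff ℝ ω (Hi s) := by
  unfold Hi
  have h1 : ContDiff ℝ ω (fun x : ℝ => √(x ^ 2 + s)) :=
    ContDiff.sqrt (by fun_prop) (fun x => by positivity)
  fun_prop

/-- `Hs s` as a homeomorphism of the line -/
noncomputable def hsHomeo (s : ℝ) (hs : 1 < s) : ℝ ≃ₜ ℝ where
  toFun := Hs s
  invFun := Hi s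
  left_inv := Hi_Hs hs
  right_inv := Hs_Hi hs
  continuous_toFun := (Hs_smooth s).continuous
  continuous_invFun := (Hi_smooth hs).continuous

end Pool.Agent.W641.FB
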