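import Pool.Agent.W641.FB.Str
import Pool.Agent.W641.FB.HsInv

open Set Function Filter Topology

namespace Pool.Agent.W641.FB

/-- homeomorphism of the line: translation -/
noncomputable def trH (t : ℝ) : ℝ ≃ₜ ℝ := Homeomorph.addRight t

/-- homeomorphism of the line: stretch -/
noncomputable def stL (t : ℝ) : ℝ ≃ₜ ℝ where
  toFun := St t
  invFun := St (-t)
  left_inv x := by rw [St_St, neg_add_cancel, St_zero]
  right_inv x := by rw [St_St, add_neg_cancel, St_zero]
  continuous_toFun := by unfold St; fun_prop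
  continuous_invFun := by unfold St; fun_prop

theorem co_mul {n : ℕ} (i : Fin n) (f g : ℝ ≃ₜ ℝ) : co i (f * g) = co i f * co i g := by
  ext x j
  change update x i (f (g (x i))) j = update (update x i (g (x i))) i (f (update x i (g (x i)) i)) j
  simp

theorem co_one {n : ℕ} (i : Fin n) : co i (1 : ℝ ≃ₜ ℝ) = 1 := by
  ext x j
  change update x i (x i) j = x j
  simp

theorem co_inv {n : ℕ} (i : Fin n) (f : ℝ ≃ₜ ℝ) : co i f⁻¹ = (co i f)⁻¹ := rfl

/-- the subgroup of `Homeo(ℝ)` of those maps whose action in the coordinate `i` is in `A` -/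
def coGp {n : ℕ} (A : Subgroup (E n ≃ₜ E n)) (i : Fin n) : Subgroup (ℝ ≃ₜ ℝ) where
  carrier := {f | co i f ∈ A}
  mul_mem' {f g} hf hg := by
    change co i (f * g) ∈ A
    rw [co_mul]; exact A.mul_mem hf hg
  one_mem' := by
    change co i 1 ∈ A
    rw [co_one]; exact A.one_mem
  inv_mem' {f} hf := A.inv_mem hf

theorem coGp_lim {n : ℕ} {A : Subgroup (E n ≃ₜ E n)} (hA : CG A) (i : Fin n) (f : ℝ ≃ₜ ℝ)
    (h : ∀ R ε : ℝ, 0 < ε → ∃ g ∈ coGp A i, ∀ y : ℝ, |y| ≤ R → |g y - f y| ≤ ε) : f ∈ coGp A i := by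
  apply hA
  intro R ε hε
  obtain ⟨g, hg, hgy⟩ := h R ε hε
  refine ⟨co i g, hg, fun x hx => ?_⟩
  rw [pi_norm_le_iff_of_nonneg hε.le]
  intro j
  change ‖update x i (g (x i)) j - update x i (f (x i)) j‖ ≤ ε
  by_cases hj : j = i
  · subst hj
    simp only [update_self, Real.norm_eq_abs]
    exact hgy _ ((norm_le_pi_norm x j).trans hx)
  · simp [hj, hε.le]

/-- A closed additive subgroup of the reals containing `1` and `√2` is everything. -/
theorem closed_all (T : AddSubgroup ℝ) (h1 : (1 : ℝ) ∈ T) (h2 : √2 ∈ T)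
    (hc : ∀ t : ℝ, (∀ ε > 0, ∃ s ∈ T, |s - t| ≤ ε) → t ∈ T) (t : ℝ) : t ∈ T := by
  have hd : Dense (AddSubgroup.closure {√2, 1} : Set ℝ) := by
    rw [dense_addSubgroupClosure_pair_iff, div_one]
    exact irrational_sqrt_two
  have hle : AddSubgroup.closure {√2, 1} ≤ T := by
    rw [AddSubgroup.closure_le]
    rintro x (rfl | rfl)
    · exact h2
    · exact h1
  apply hc
  intro ε hε
  obtain ⟨s, hs, hst⟩ := Metric.dense_iff.1 hd t ε hε
  rw [Metric.mem_ball, Real.dist_eq] at hs
  exact ⟨s, hle hst, hs.le⟩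

theorem coGp_tr {n : ℕ} {A : Subgroup (E n ≃ₜ E n)} (hA : CG A) (i : Fin n) (hg : Gens A i) (t : ℝ) :
    trH t ∈ coGp A i := by
  let T : AddSubgroup ℝ :=
    { carrier := {t | trH t ∈ coGp A i}
      add_mem' := by
        intro s t hs ht
        have : trH (s + t) = trH s * trH t := by
          ext x
          change x + (s + t) = x + t + s
          ring
        change trH (s + t) ∈ coGp A i
        rw [this]; exact (coGp A i).mul_mem hs ht
      zero_mem' := by
        have : trH 0 = 1 := by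
          ext x
          change x + 0 = x
          ring
        change trH 0 ∈ coGp A i
        rw [this]; exact (coGp A i).one_mem
      neg_mem' := by
        intro s hs
        have : trH (-s) = (trH s)⁻¹ := by
          ext x
          rfl
        change trH (-s) ∈ coGp A i
        rw [this]; exact (coGp A i).inv_mem hs }
  refine closed_all T (hg.t1 _ fun x => rfl) (hg.t2 _ fun x => rfl) ?_ t
  intro t ht
  apply coGp_lim hA
  intro R ε hε
  obtain ⟨s, hs, hst⟩ := ht ε hε
  refine ⟨trH s, hs, fun y hy => ?_⟩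
  change |y + s - (y + t)| ≤ ε
  rwa [add_sub_add_left_eq_sub]

/-- scaling by `2^k` -/
noncomputable def scH (k : ℕ) : ℝ ≃ₜ ℝ := Homeomorph.mulLeft₀ ((2:ℝ) ^ k) (by positivity)

theorem coGp_sc {n : ℕ} {A : Subgroup (E n ≃ₜ E n)} (i : Fin n) (hg : Gens A i) (k : ℕ) :
    scH k ∈ coGp A i := by
  induction k with
  | zero =>
    have : scH 0 = 1 := by
      ext x
      change (2:ℝ) ^ 0 * x = x
      simp
    rw [this]; exact (coGp A i).one_mem
  | succ k ih =>
    have h1 : scH 1 ∈ coGp A i := hg.dbl _ fun x => by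
      change update x i ((2:ℝ) ^ 1 * x i) = _
      simp
    have : scH (k + 1) = scH 1 * scH k := by
      ext x
      change (2:ℝ) ^ (k + 1) * x = 2 ^ 1 * (2 ^ k * x)
      ring
    rw [this]; exact (coGp A i).mul_mem h1 ih

theorem sqrt_est {l y : ℝ} (hl : 0 < l) : abs (√(1 + (l * y) ^ 2) - l * |y|) ≤ 1 := by
  have h0 : 0 ≤ l * |y| := by positivity
  have h1 : l * |y| = √((l * y) ^ 2) := by
    rw [Real.sqrt_sq_eq_abs, abs_mul, abs_of_pos hl]
  have h2 : l * |y| ≤ √(1 + (l * y) ^ 2) := by
    rw [h1]; exact Real.sqrt_le_sqrt (by linarith)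
  have h3 : √(1 + (l * y) ^ 2) ≤ 1 + l * |y| := by
    rw [Real.sqrt_le_left (by linarith)]
    have : (l * y) ^ 2 = (l * |y|) ^ 2 := by rw [mul_pow, mul_pow, sq_abs]
    rw [this]; nlinarith
  rw [abs_le]; constructor <;> linarith

theorem Hs_est {s l y : ℝ} (hs : 1 ≤ s) (hl : 0 < l) :
    |l⁻¹ * Hs s (l * y) - St (Real.log s) y| ≤ (s - 1) / l := by
  have hs0 : 0 < s := by linarith
  have hSt : St (Real.log s) y = ((1 + s) * y + (s - 1) * |y|) / 2 := by
    rw [St, Real.exp_log hs0]
    rcases le_total y 0 with hy | hy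
    · rw [max_eq_right hy, abs_of_nonpos hy]; ring
    · rw [max_eq_left hy, abs_of_nonneg hy]; ring
  rw [hSt]
  have e : l⁻¹ * Hs s (l * y) - ((1 + s) * y + (s - 1) * |y|) / 2
      = (s - 1) / (2 * l) * (√(1 + (l * y) ^ 2) - l * |y|) := by
    unfold Hs
    field_simp
    ring
  rw [e, abs_mul]
  have h1 : 0 ≤ (s - 1) / (2 * l) := div_nonneg (by linarith) (by linarith)
  rw [abs_of_nonneg h1]
  calc (s - 1) / (2 * l) * abs (√(1 + (l * y) ^ 2) - l * |y|) ≤ (s - 1) / (2 * l) * 1 :=
        mul_le_mul_of_nonneg_left (sqrt_est hl) h1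
    _ ≤ (s - 1) / l := by
        rw [mul_one]
        apply div_le_div_of_nonneg_left (by linarith) hl (by linarith)

theorem coGp_stOf {n : ℕ} {A : Subgroup (E n ≃ₜ E n)} (hA : CG A) (i : Fin n) (hg : Gens A i)
    (t : ℝ) (ht : 0 < t) (f : ℝ ≃ₜ ℝ) (hf : ∀ y, f y = Hs (Real.exp t) y) (hfA : f ∈ coGp A i) :
    stL t ∈ coGp A i := by
  apply coGp_lim hA
  intro R ε hε
  obtain ⟨k, hk⟩ : ∃ k : ℕ, (Real.exp t - 1) / ε < 2 ^ k := pow_unbounded_of_one_lt _ one_lt_two
  have h1 : 1 ≤ Real.exp t := Real.one_le_exp ht.le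
  refine ⟨(scH k)⁻¹ * f * scH k, (coGp A i).mul_mem ((coGp A i).mul_mem ((coGp A i).inv_mem
    (coGp_sc i hg k)) hfA) (coGp_sc i hg k), fun y hy => ?_⟩
  change |((2:ℝ) ^ k)⁻¹ * f (2 ^ k * y) - St t y| ≤ ε
  rw [hf]
  have := Hs_est (y := y) h1 (show (0:ℝ) < 2 ^ k by positivity)
  rw [Real.log_exp] at this
  refine this.trans ?_
  rw [div_le_iff₀ (by positivity)]
  rw [div_lt_iff₀ hε] at hk
  linarith

theorem coGp_st {n : ℕ} {A : Subgroup (E n ≃ₜ E n)} (hA : CG A) (i : Fin n) (hg : Gens A i) (t : ℝ) :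
    stL t ∈ coGp A i := by
  let T : AddSubgroup ℝ :=
    { carrier := {t | stL t ∈ coGp A i}
      add_mem' := by
        intro s t hs ht
        have : stL (s + t) = stL s * stL t := by
          ext x
          exact (St_St s t x).symm
        change stL (s + t) ∈ coGp A i
        rw [this]; exact (coGp A i).mul_mem hs ht
      zero_mem' := by
        have : stL 0 = 1 := by
          ext x
          exact St_zero x
        change stL 0 ∈ coGp A i
        rw [this]; exact (coGp A i).one_mem
      neg_mem' := by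
        intro s hs
        have : stL (-s) = (stL s)⁻¹ := by
          ext x
          rfl
        change stL (-s) ∈ coGp A i
        rw [this]; exact (coGp A i).inv_mem hs }
  have hHs : ∀ s : ℝ, 1 < s → ∃ f : ℝ ≃ₜ ℝ, ∀ y, f y = Hs s y := by
    intro s hs
    exact ⟨hsHomeo s hs, fun y => rfl⟩
  refine closed_all T ?_ ?_ ?_ t
  · obtain ⟨f, hf⟩ := hHs (Real.exp 1) (Real.one_lt_exp_iff.2 one_pos)
    exact coGp_stOf hA i hg 1 one_pos f hf (hg.h1 _ fun x => by
      change update x i (f (x i)) = _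
      rw [hf])
  · obtain ⟨f, hf⟩ := hHs (Real.exp √2) (Real.one_lt_exp_iff.2 (by positivity))
    exact coGp_stOf hA i hg √2 (by positivity) f hf (hg.h2 _ fun x => by
      change update x i (f (x i)) = _
      rw [hf])
  · intro t ht
    apply coGp_lim hA
    intro R ε hε
    have hc : ContinuousAt Real.exp t := Real.continuous_exp.continuousAt
    obtain ⟨δ, hδ, hd⟩ := Metric.continuousAt_iff.1 hc (ε / (|R| + 1)) (by positivity)
    obtain ⟨s, hs, hst⟩ := ht (δ / 2) (by positivity)
    refine ⟨stL s, hs, fun y hy => ?_⟩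
    change |St s y - St t y| ≤ ε
    have h1 := hd (show dist s t < δ by rw [Real.dist_eq]; linarith)
    rw [Real.dist_eq] at h1
    have e : St s y - St t y = (Real.exp s - Real.exp t) * max y 0 := by unfold St; ring
    rw [e, abs_mul]
    have h2 : |max y 0| ≤ |R| + 1 := by
      rw [abs_of_nonneg (le_max_right _ _)]
      apply max_le
      · linarith [le_abs_self y, le_abs_self R]
      · positivity
    calc |Real.exp s - Real.exp t| * |max y 0| ≤ (ε / (|R| + 1)) * (|R| + 1) := by
          apply mul_le_mul h1.le h2 (abs_nonneg _) (by positivity)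
      _ = ε := by field_simp

/-- the identification of `E 1` with the line -/
def e1 : E 1 ≃ₜ ℝ := Homeomorph.funUnique (Fin 1) ℝ

theorem e1_apply (x : E 1) : e1 x = x 0 := rfl
theorem e1_symm_apply (y : ℝ) (j : Fin 1) : e1.symm y j = y := rfl

/-- conjugation with `e1` -/
def toLine (p : E 1 ≃ₜ E 1) : ℝ ≃ₜ ℝ := e1.symm.trans (p.trans e1)

theorem toLine_apply (p : E 1 ≃ₜ E 1) (y : ℝ) : toLine p y = p (fun _ => y) 0 := rfl

theorem toLine_mul (p q : E 1 ≃ₜ E 1) : toLine (p * q) = toLine p * toLine q := by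
  ext y
  change e1 (p (q (e1.symm y))) = e1 (p (e1.symm (e1 (q (e1.symm y)))))
  rw [Homeomorph.symm_apply_apply]

/-- the corresponding subgroup -/
def lineGp (B : Subgroup (ℝ ≃ₜ ℝ)) : Subgroup (E 1 ≃ₜ E 1) where
  carrier := {p | toLine p ∈ B}
  mul_mem' {p q} hp hq := by
    change toLine (p * q) ∈ B
    rw [toLine_mul]; exact B.mul_mem hp hq
  one_mem' := by
    have : toLine 1 = 1 := by
      ext y; rfl
    change toLine 1 ∈ B
    rw [this]; exact B.one_mem
  inv_mem' {p} hp := by
    have : toLine p⁻¹ = (toLine p)⁻¹ := rfl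
    change toLine p⁻¹ ∈ B
    rw [this]; exact B.inv_mem hp

theorem upd1 (x : E 1) (a : ℝ) : update x 0 a = fun _ => a := by
  ext k; fin_cases k; simp

theorem ind_const {g : E 1 → ℝ} (hg : Ind 0 g) (x y : E 1) : g x = g y := by
  have h1 := hg x (y 0)
  rw [upd1] at h1
  have : (fun _ => y 0) = y := by ext k; fin_cases k; rfl
  rw [this] at h1
  exact h1.symm

theorem one : S_One := by
  intro n A i hA hg f hf h hh
  have hcg : CG (lineGp (coGp A i)) := by
    intro p hp
    apply coGp_lim hA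
    intro R ε hε
    obtain ⟨q, hq, hqp⟩ := hp R ε hε
    refine ⟨toLine q, hq, fun y hy => ?_⟩
    rw [toLine_apply, toLine_apply]
    have hR : 0 ≤ R := (abs_nonneg y).trans hy
    have h1 := hqp (fun _ => y) (by
      rw [pi_norm_le_iff_of_nonneg hR]; intro _; exact hy)
    exact (norm_le_pi_norm (q (fun _ => y) - p (fun _ => y)) 0).trans h1
  have hsh : HasShear (lineGp (coGp A i)) 0 := by
    intro g _ hgi p hp
    have : toLine p = trH (g 0) := by
      ext y
      rw [toLine_apply, hp]
      change update (fun _ => y) 0 (y + g fun _ => y) 0 = y + g 0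
      rw [update_self, ind_const hgi (fun _ => y) 0]
    change toLine p ∈ coGp A i
    rw [this]
    exact coGp_tr hA i hg _
  have hst : HasStretch (lineGp (coGp A i)) 0 := by
    intro g _ hgi p hp
    have : toLine p = stL (g 0) := by
      ext y
      rw [toLine_apply, hp]
      change update (fun _ => y) 0 (y + (Real.exp (g fun _ => y) - 1) * max y 0) 0 = St (g 0) y
      rw [update_self, ind_const hgi (fun _ => y) 0]
      rfl
    change toLine p ∈ coGp A i
    rw [this]
    exact coGp_st hA i hg _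
  have hfib := fib 1 (lineGp (coGp A i)) 0 hcg hsh hst
  have h1 : e1.trans (f.trans e1.symm) ∈ lineGp (coGp A i) := by
    apply hfib
    · intro x j hj; exact absurd (Subsingleton.elim j 0) hj
    · intro x a b hab
      change f (update x 0 a 0) < f (update x 0 b 0)
      simpa using hf hab
  have h2 : toLine (e1.trans (f.trans e1.symm)) = f := by
    ext y
    change e1 (e1.symm (f (e1 (e1.symm y)))) = f y
    simp
  have h3 : f ∈ coGp A i := by
    rw [← h2]; exact h1
  have h4 : h = co i f := by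
    ext x; rw [hh]; rfl
  rw [h4]
  exact h3

end Pool.Agent.W641.FB
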