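import Pool.Agent.W641.FB.Fib

open Set Function Filter Topology

namespace Pool.Agent.W641.FB

/-- the conjugating function -/
noncomputable def kf (δ z : ℝ) : ℝ := δ * (Real.exp (max z 0) - 1) + δ * min z 0

theorem kf_cont (δ : ℝ) : Continuous (kf δ) := by unfold kf; fun_prop

theorem kf_nonpos (δ : ℝ) {z : ℝ} (hz : z ≤ 0) : kf δ z = δ * z := by
  simp [kf, max_eq_right hz, min_eq_left hz]

theorem kf_nonneg (δ : ℝ) {z : ℝ} (hz : 0 ≤ z) : kf δ z = δ * (Real.exp z - 1) := by
  simp [kf, max_eq_left hz, min_eq_right hz]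

theorem kf_mono {δ : ℝ} (hδ : 0 < δ) : StrictMono (kf δ) := by
  intro a b hab
  rcases le_total a 0 with ha | ha
  · rcases le_total b 0 with hb | hb
    · rw [kf_nonpos δ ha, kf_nonpos δ hb]
      exact mul_lt_mul_of_pos_left hab hδ
    · rw [kf_nonpos δ ha, kf_nonneg δ hb]
      apply mul_lt_mul_of_pos_left _ hδ
      have := Real.add_one_le_exp b
      linarith
  · have hb : 0 ≤ b := ha.trans hab.le
    rw [kf_nonneg δ ha, kf_nonneg δ hb]
    apply mul_lt_mul_of_pos_left _ hδ
    have := Real.exp_lt_exp.2 hab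
    linarith

theorem kf_surj {δ : ℝ} (hδ : 0 < δ) : Surjective (kf δ) := by
  intro y
  rcases le_total y 0 with hy | hy
  · refine ⟨y / δ, ?_⟩
    rw [kf_nonpos δ (div_nonpos_of_nonpos_of_nonneg hy hδ.le)]
    field_simp
  · refine ⟨Real.log (y / δ + 1), ?_⟩
    have h1 : 0 ≤ y / δ := by positivity
    rw [kf_nonneg δ (Real.log_nonneg (by linarith)), Real.exp_log (by linarith)]
    field_simp
    ring

/-- as a homeomorphism -/
noncomputable def kH (δ : ℝ) (hδ : 0 < δ) : ℝ ≃ₜ ℝ :=
  ((kf_mono hδ).orderIsoOfSurjective _ (kf_surj hδ)).toHomeomorph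

theorem kH_apply (δ : ℝ) (hδ : 0 < δ) (z : ℝ) : kH δ hδ z = kf δ z := rfl

/-- A homeomorphism of the line acting in the `i`-th coordinate. -/
def co {n : ℕ} (i : Fin n) (f : ℝ ≃ₜ ℝ) : E n ≃ₜ E n where
  toFun x := update x i (f (x i))
  invFun x := update x i (f.symm (x i))
  left_inv x := by simp
  right_inv x := by simp
  continuous_toFun := continuous_id.update i (f.continuous.comp (continuous_apply i))
  continuous_invFun := continuous_id.update i (f.symm.continuous.comp (continuous_apply i))

theorem kf_est {δ : ℝ} (hδ : 0 < δ) {T t z : ℝ} (ht : |t| ≤ T) :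
    |kf δ (z + t) - St t (kf δ z)| ≤ δ * (T + 3 * Real.exp T) := by
  have ht' := abs_le.1 ht
  have hT : 0 ≤ T := (abs_nonneg t).trans ht
  have e1 : Real.exp t ≤ Real.exp T := Real.exp_le_exp.2 ht'.2
  have e2 : 1 ≤ Real.exp T := Real.one_le_exp hT
  have e3 : 0 < Real.exp t := Real.exp_pos t
  rcases le_total z 0 with hz | hz
  · have h0 : kf δ z ≤ 0 := by
      rw [kf_nonpos δ hz]; exact mul_nonpos_of_nonneg_of_nonpos hδ.le hz
    rw [St_nonpos h0, kf_nonpos δ hz]
    rcases le_total (z + t) 0 with hzt | hzt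
    · rw [kf_nonpos δ hzt, show δ * (z + t) - δ * z = δ * t by ring, abs_mul, abs_of_pos hδ]
      apply mul_le_mul_of_nonneg_left _ hδ.le
      linarith
    · rw [kf_nonneg δ hzt, show δ * (Real.exp (z + t) - 1) - δ * z = δ * (Real.exp (z + t) - 1 - z) by ring,
        abs_mul, abs_of_pos hδ]
      apply mul_le_mul_of_nonneg_left _ hδ.le
      have a1 : Real.exp (z + t) ≤ Real.exp T := Real.exp_le_exp.2 (by linarith)
      have a2 : 1 ≤ Real.exp (z + t) := Real.one_le_exp hzt
      rw [abs_le]
      constructor <;> linarith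
  · have h0 : 0 ≤ kf δ z := by
      rw [kf_nonneg δ hz]
      exact mul_nonneg hδ.le (by have := Real.one_le_exp hz; linarith)
    rw [St_nonneg h0, kf_nonneg δ hz]
    rcases le_total (z + t) 0 with hzt | hzt
    · rw [kf_nonpos δ hzt, show δ * (z + t) - Real.exp t * (δ * (Real.exp z - 1))
        = δ * (z + t - Real.exp (z + t) + Real.exp t) by rw [Real.exp_add]; ring,
        abs_mul, abs_of_pos hδ]
      apply mul_le_mul_of_nonneg_left _ hδ.le
      have a1 : Real.exp (z + t) ≤ 1 := Real.exp_le_one_iff.2 hzt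
      have a2 : 0 < Real.exp (z + t) := Real.exp_pos _
      rw [abs_le]
      constructor <;> linarith
    · rw [kf_nonneg δ hzt, show δ * (Real.exp (z + t) - 1) - Real.exp t * (δ * (Real.exp z - 1))
        = δ * (Real.exp t - 1) by rw [Real.exp_add]; ring,
        abs_mul, abs_of_pos hδ]
      apply mul_le_mul_of_nonneg_left _ hδ.le
      rw [abs_le]
      constructor <;> linarith

theorem str : S_Str := by
  intro n A i hA hsh hone t ht hti h hh
  apply hA
  intro R ε hε
  obtain ⟨T, hT⟩ : ∃ T, ∀ x ∈ Metric.closedBall (0 : E n) R, |t x| ≤ T := by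
    have := (isCompact_closedBall (0 : E n) R).exists_bound_of_continuousOn ht.continuousOn
    simpa using this
  set T' := max T 0
  have hT' : 0 ≤ T' := le_max_right _ _
  have hpos : 0 < T' + 3 * Real.exp T' := by positivity
  set δ := ε / (T' + 3 * Real.exp T') with hδd
  have hδ : 0 < δ := div_pos hε hpos
  set K := co i (kH δ hδ) with hK
  have hKA : K ∈ A := hone (kH δ hδ) (kf_mono hδ) K (fun x => rfl)
  set σ := shH i t ht hti with hσ
  have hσA : σ ∈ A := hsh t ht hti σ (fun x => rfl)
  refine ⟨K * σ * K⁻¹, A.mul_mem (A.mul_mem hKA hσA) (A.inv_mem hKA), fun x hx => ?_⟩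
  set z := (kH δ hδ).symm (x i) with hz
  have hzx : kf δ z = x i := (kH δ hδ).apply_symm_apply (x i)
  have e1 : (K * σ * K⁻¹) x = update x i (kf δ (z + t x)) := by
    change update (update (update x i z) i (update x i z i + t (update x i z))) i
      (kf δ (update (update x i z) i (update x i z i + t (update x i z)) i)) = _
    simp only [update_idem, update_self]
    rw [hti]
  rw [e1, hh, pi_norm_le_iff_of_nonneg hε.le]
  intro j
  by_cases hj : j = i
  · subst hj
    simp only [Pi.sub_apply, update_self, Real.norm_eq_abs]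
    have h1 : |t x| ≤ T' := (hT x (by rwa [mem_closedBall_zero_iff])).trans (le_max_left _ _)
    have := kf_est hδ (z := z) h1
    rw [hzx] at this
    refine this.trans (le_of_eq ?_)
    rw [hδd, div_mul_cancel₀ _ hpos.ne']
  · simp [hj, hε.le]

end Pool.Agent.W641.FB
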